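import Mathlib

/-!
# MP_b7336c_co: the `2 ^ n`-th power of the binary pattern-count matrix

`M_n` is congruent modulo 2 to `1 + B` with `B` strictly lower triangular, so modulo 2 its `2 ^ n`-th
power is `1 + B ^ (2 ^ n)`. A nonzero entry `(i, j)` of `B ^ k` forces the binary word of `i` to be
longer than that of `j` by at least `k`. All the words of `1, …, N` have length at most `2 ^ n`, the
word of `N = 2 ^ (2 ^ n)` excepted, whose length is `2 ^ n + 1`, so `B ^ (2 ^ n)` has at most the entry
`(N, 1)`; this entry is `1`, since the block `1 0 ⋯ 0` has exactly one occurrence of each shorter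
block `1 0 ⋯ 0`.
-/

set_option autoImplicit false

namespace Pool.Agent.Results.MP_b7336c_co.CornerPower

/-- The binary representation of `j`, most significant digit first. -/
def bin (j : ℕ) : List ℕ := (Nat.digits 2 j).reverse

/-- The number of occurrences of the block `w` in the word `l`, overlaps allowed: the number of
positions `t` such that `w` is a prefix of `l` with the first `t` letters removed. -/
def occ (w l : List ℕ) : ℕ := (List.range (l.length + 1)).countP fun t => decide (w <+: l.drop t)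

/-- The matrix `M_n` of size `N = 2 ^ (2 ^ n)`; the row with index `i : Fin N` is the row `i + 1`,
and its entries are `m_{i,j} = e_{2;(j)_2}(i)`. -/
def M (n : ℕ) : Matrix (Fin (2 ^ (2 ^ n))) (Fin (2 ^ (2 ^ n))) ℤ :=
  Matrix.of fun i j => (occ (bin ((j : ℕ) + 1)) (bin ((i : ℕ) + 1)) : ℤ)

/-- The number of binary digits. -/
def len (j : ℕ) : ℕ := (bin j).length

theorem occ_pos {w l : List ℕ} (h : occ w l ≠ 0) : ∃ t, t ≤ l.length ∧ w <+: l.drop t := by
  unfold occ at h
  rw [Ne, List.countP_eq_zero] at h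
  push Not at h
  obtain ⟨t, ht, h2⟩ := h
  exact ⟨t, by simpa [Nat.lt_succ_iff] using ht, by simpa using h2⟩

/-- If only the position `0` is an occurrence then the count is one. -/
theorem occ_eq_one {w l : List ℕ} (h0 : w <+: l) (h : ∀ t, 1 ≤ t → ¬ w <+: l.drop t) :
    occ w l = 1 := by
  unfold occ
  rw [List.range_succ_eq_map, List.countP_cons, List.countP_map]
  have : List.countP ((fun t => decide (w <+: List.drop t l)) ∘ Nat.succ) (List.range l.length) = 0 := by
    rw [List.countP_eq_zero]
    intro t _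
    simpa using h (t + 1) (by omega)
  rw [this]
  simpa using h0

theorem bin_ne_nil {j : ℕ} (hj : 0 < j) : bin j ≠ [] := by
  simpa [bin] using Nat.digits_ne_nil_iff_ne_zero.2 hj.ne'

theorem occ_self {j : ℕ} (hj : 0 < j) : occ (bin j) (bin j) = 1 := by
  refine occ_eq_one (List.prefix_refl _) ?_
  intro t ht h
  have h1 := h.length_le
  have h2 : (bin j).length ≠ 0 := by simpa using bin_ne_nil hj
  rw [List.length_drop] at h1
  omega

theorem bin_inj {i j : ℕ} (h : bin i = bin j) : i = j := by
  have := List.reverse_injective h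
  have h2 := congrArg (Nat.ofDigits 2) this
  simpa [Nat.ofDigits_digits] using h2

theorem len_lt_of_occ {i j : ℕ} (hij : i ≠ j) (hj : 0 < j) (h : occ (bin j) (bin i) ≠ 0) :
    len j < len i := by
  obtain ⟨t, ht, hp⟩ := occ_pos h
  have h1 := hp.length_le
  rw [List.length_drop] at h1
  have h2 : (bin j).length ≠ 0 := by simpa using bin_ne_nil hj
  by_contra hc
  unfold len at hc
  have ht0 : t = 0 := by omega
  subst ht0
  have := hp.eq_of_length (by simp; omega)
  exact hij (bin_inj this.symm)

theorem bin_two_pow (k : ℕ) : bin (2 ^ k) = 1 :: List.replicate k 0 := by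
  unfold bin
  have := Nat.digits_base_pow_mul (b := 2) (k := k) (m := 1) (by norm_num) (by norm_num)
  rw [mul_one] at this
  rw [this]
  simp

theorem head_bin {j : ℕ} (hj : 0 < j) : ∃ l, bin j = 1 :: l := by
  have h1 : (Nat.digits 2 j) ≠ [] := Nat.digits_ne_nil_iff_ne_zero.2 hj.ne'
  have h2 := Nat.getLast_digit_ne_zero 2 hj.ne'
  have h3 : (Nat.digits 2 j).getLast h1 < 2 := Nat.digits_lt_base (by norm_num) (List.getLast_mem h1)
  have h4 : (Nat.digits 2 j).getLast h1 = 1 := by omega
  have h5 := List.dropLast_append_getLast h1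
  refine ⟨(Nat.digits 2 j).dropLast.reverse, ?_⟩
  unfold bin
  rw [← h5, h4]
  simp

/-- Inside `1 0 ⋯ 0` the binary words occur only at the beginning. -/
theorem occ_two_pow {j k t : ℕ} (hj : 0 < j) (h : bin j <+: (bin (2 ^ k)).drop t) : t = 0 := by
  by_contra ht
  obtain ⟨l, hl⟩ := head_bin hj
  obtain ⟨s, rfl⟩ := Nat.exists_eq_succ_of_ne_zero ht
  rw [bin_two_pow, hl] at h
  simp only [List.drop_succ_cons, List.drop_replicate] at h
  have := h.subset (List.mem_cons_self)
  have := List.eq_of_mem_replicate this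
  omega

theorem eq_two_pow {j k : ℕ} (hj : 0 < j) (h : occ (bin j) (bin (2 ^ (k + 1))) ≠ 0)
    (hl : k + 1 ≤ len j) (hl2 : j ≠ 2 ^ (k + 1)) : j = 2 ^ k := by
  have h3 := len_lt_of_occ (Ne.symm hl2) hj h
  obtain ⟨t, ht, hp⟩ := occ_pos h
  have h0 := occ_two_pow hj hp
  subst h0
  have e1 : len (2 ^ (k + 1)) = k + 2 := by simp [len, bin_two_pow]
  have e2 : (bin j).length = k + 1 := by unfold len at *; omega
  rw [List.drop_zero] at hp
  have e3 : bin (2 ^ k) <+: bin (2 ^ (k + 1)) := by
    rw [bin_two_pow, bin_two_pow, List.replicate_succ', ← List.cons_append]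
    exact List.prefix_append _ _
  apply bin_inj
  exact (List.prefix_of_prefix_length_le hp e3 (by simp [bin_two_pow, e2])).eq_of_length
    (by simp [bin_two_pow, e2])

theorem occ_step (k : ℕ) : occ (bin (2 ^ k)) (bin (2 ^ (k + 1))) = 1 := by
  refine occ_eq_one ?_ ?_
  · rw [bin_two_pow, bin_two_pow, List.replicate_succ', ← List.cons_append]
    exact List.prefix_append _ _
  · intro t ht h
    have := occ_two_pow (by positivity) h
    omega

/-- The matrix `M_n` modulo 2, minus the identity matrix. -/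
def B (n : ℕ) : Matrix (Fin (2 ^ (2 ^ n))) (Fin (2 ^ (2 ^ n))) (ZMod 2) :=
  (M n).map (Int.cast : ℤ → ZMod 2) - 1

theorem B_ne {n : ℕ} {i j : Fin (2 ^ (2 ^ n))} (h : B n i j ≠ 0) :
    i ≠ j ∧ occ (bin ((j : ℕ) + 1)) (bin ((i : ℕ) + 1)) ≠ 0 := by
  have hne : i ≠ j := by
    rintro rfl
    apply h
    simp [B, M, occ_self]
  refine ⟨hne, ?_⟩
  intro h0
  apply h
  simp [B, M, h0, Matrix.one_apply_ne hne]

theorem B_len {n : ℕ} {i j : Fin (2 ^ (2 ^ n))} (h : B n i j ≠ 0) :
    len ((j : ℕ) + 1) < len ((i : ℕ) + 1) := by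
  obtain ⟨h1, h2⟩ := B_ne h
  exact len_lt_of_occ (fun h => h1 (Fin.ext (by omega))) (by omega) h2

theorem B_pow_len {n : ℕ} (k : ℕ) : ∀ {i j : Fin (2 ^ (2 ^ n))}, (B n ^ k) i j ≠ 0 →
    len ((j : ℕ) + 1) + k ≤ len ((i : ℕ) + 1) := by
  induction k with
  | zero =>
    intro i j h
    have : i = j := by
      by_contra hne
      exact h (by simp [Matrix.one_apply_ne hne])
    subst this
    simp
  | succ k ih =>
    intro i j h
    rw [pow_succ', Matrix.mul_apply] at h
    obtain ⟨m, -, hm⟩ := Finset.exists_ne_zero_of_sum_ne_zero h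
    have h1 := B_len (left_ne_zero_of_mul hm)
    have h2 := ih (right_ne_zero_of_mul hm)
    omega

theorem B_pow_corner {n : ℕ} (k : ℕ) : ∀ (i z : Fin (2 ^ (2 ^ n))), (i : ℕ) + 1 = 2 ^ k →
    (z : ℕ) = 0 → (B n ^ k) i z = 1 := by
  induction k with
  | zero =>
    intro i z hi hz
    have : i = z := Fin.ext (by rw [pow_zero] at hi; omega)
    subst this
    simp
  | succ k ih =>
    intro i z hi hz
    have hlt : 2 ^ k ≤ (i : ℕ) := by
      have : 2 ^ (k + 1) = 2 * 2 ^ k := by ring
      have : 1 ≤ 2 ^ k := Nat.one_le_two_pow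
      omega
    have h1k : 1 ≤ 2 ^ k := Nat.one_le_two_pow
    let m : Fin (2 ^ (2 ^ n)) := ⟨2 ^ k - 1, by have := i.2; omega⟩
    have hm : (m : ℕ) + 1 = 2 ^ k := by simp only [m]; omega
    rw [pow_succ', Matrix.mul_apply, Finset.sum_eq_single m]
    · rw [ih m z hm hz, mul_one]
      have hne : i ≠ m := by
        intro h
        have := congrArg Fin.val h
        omega
      have ho : occ (bin ((m : ℕ) + 1)) (bin ((i : ℕ) + 1)) = 1 := by
        rw [hm, hi]
        exact occ_step k
      simp [B, M, ho, Matrix.one_apply_ne hne]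
    · intro j _ hj
      by_contra hc
      obtain ⟨h2, h3⟩ := B_ne (left_ne_zero_of_mul hc)
      have h4 := B_pow_len k (right_ne_zero_of_mul hc)
      rw [hi] at h3
      have h5 : len ((z : ℕ) + 1) = 1 := by
        rw [hz]
        simp [len, bin]
      have h6 := eq_two_pow (k := k) (by omega) h3 (by omega) (fun h => h2 (Fin.ext (by omega)))
      exact hj (Fin.ext (by omega))
    · intro h
      exact absurd (Finset.mem_univ _) h

theorem len_le {n j : ℕ} (h : j < 2 ^ (2 ^ n)) : len j ≤ 2 ^ n := by
  unfold len bin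
  rw [List.length_reverse]
  exact Nat.digits_length_le_iff (by norm_num) _ |>.2 h

theorem map_eq (n : ℕ) : (M n).map (Int.cast : ℤ → ZMod 2) = 1 + B n := by
  simp [B]

/-- For every `n` (in particular for every `n ≥ 1`), with `N = 2 ^ (2 ^ n)`, the matrix
`M_n ^ (2 ^ n)` is entrywise congruent modulo 2 to `I + E_{N,1}`. -/
theorem result : ∀ (n : ℕ) (last first : Fin (2 ^ (2 ^ n))), (last : ℕ) + 1 = 2 ^ (2 ^ n) →
    (first : ℕ) + 1 = 1 → ∀ i j : Fin (2 ^ (2 ^ n)),
    (M n ^ (2 ^ n)) i j ≡ (1 + Matrix.single last first (1 : ℤ)) i j [ZMOD 2] := by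
  intro n last first hl hf i j
  have hne : Nonempty (Fin (2 ^ (2 ^ n))) := ⟨last⟩
  have key : (M n ^ (2 ^ n)).map (Int.cast : ℤ → ZMod 2) = 1 + B n ^ (2 ^ n) := by
    have h1 : (M n ^ (2 ^ n)).map (Int.cast : ℤ → ZMod 2) =
        ((M n).map (Int.cast : ℤ → ZMod 2)) ^ (2 ^ n) := by
      have := map_pow ((Int.castRingHom (ZMod 2)).mapMatrix) (M n) (2 ^ n)
      simpa using this
    rw [h1, map_eq, add_pow_char_pow_of_commute _ _ (Commute.one_left _), one_pow]
  have hB : B n ^ (2 ^ n) = Matrix.single last first (1 : ZMod 2) := by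
    ext a b
    by_cases h : a = last ∧ b = first
    · obtain ⟨rfl, rfl⟩ := h
      rw [B_pow_corner (2 ^ n) a b hl (by omega)]
      simp
    · have hz : (B n ^ (2 ^ n)) a b = 0 := by
        by_contra hc
        have h1 := B_pow_len _ hc
        have hb1 : 1 ≤ len ((b : ℕ) + 1) := by
          have : (bin ((b : ℕ) + 1)).length ≠ 0 := by simpa using bin_ne_nil (by omega)
          unfold len
          omega
        have ha : a = last := by
          by_contra hal
          have : (a : ℕ) + 1 < 2 ^ (2 ^ n) := by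
            have h2 := a.2
            have h3 : (a : ℕ) ≠ last := fun h => hal (Fin.ext h)
            omega
          have := len_le this
          omega
        have hb : b = first := by
          subst ha
          rw [hl] at h1
          have h2 : len (2 ^ (2 ^ n)) = 2 ^ n + 1 := by simp [len, bin_two_pow]
          rw [h2] at h1
          have h3 : len ((b : ℕ) + 1) ≤ 1 := by omega
          have h4 : (Nat.digits 2 ((b : ℕ) + 1)).length ≤ 1 := by
            simpa [len, bin] using h3
          have h5 := (Nat.digits_length_le_iff (by norm_num : 1 < 2) _).1 h4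
          exact Fin.ext (by omega)
        exact h ⟨ha, hb⟩
      rw [hz]
      rw [Matrix.single_apply, if_neg]
      rintro ⟨rfl, rfl⟩
      exact h ⟨rfl, rfl⟩
  have h2 := congrFun (congrFun key i) j
  rw [hB] at h2
  rw [Matrix.map_apply] at h2
  refine (ZMod.intCast_eq_intCast_iff _ _ 2).1 ?_
  rw [h2]
  simp only [Matrix.add_apply, Matrix.single_apply, Matrix.one_apply]
  push_cast
  rfl

end Pool.Agent.Results.MP_b7336c_co.CornerPower
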